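import Mathlib

set_option autoImplicit false

namespace Pool.Agent.Results.MP_b2f0ea_ag.UnexpectedLGP

open MvPolynomial
open scoped LinearAlgebra.Projectivization

universe u

section Definitions

variable {k : Type u} [Field k] {n : ℕ}

/-- The homogeneous vanishing ideal of a set `Z` of points of projective `n`-space:
the ideal generated by all forms (homogeneous polynomials) vanishing at every point of `Z`. -/
noncomputable def vanIdeal (Z : Set (ℙ k (Fin (n + 1) → k))) : Ideal (MvPolynomial (Fin (n + 1)) k) :=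
  Ideal.span {f | (∃ e : ℕ, f.IsHomogeneous e) ∧ ∀ z ∈ Z, eval z.rep f = 0}

/-- The degree `d` part of an ideal, as a vector space over `k`. -/
noncomputable def degPart (I : Ideal (MvPolynomial (Fin (n + 1)) k)) (d : ℕ) :
    Submodule k (MvPolynomial (Fin (n + 1)) k) :=
  I.restrictScalars k ⊓ homogeneousSubmodule (Fin (n + 1)) k d

/-- `Z` is non-degenerate: it is not contained in a hyperplane, that is, the only linear form
vanishing on `Z` is zero. -/
def NonDegenerate (Z : Set (ℙ k (Fin (n + 1) → k))) : Prop :=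
  ∀ f : MvPolynomial (Fin (n + 1)) k, f.IsHomogeneous 1 → (∀ z ∈ Z, eval z.rep f = 0) → f = 0

/-- `Z` is in linear general position: every subset of at most `n + 1` points of `Z` is
linearly independent. -/
def LinGenPos (Z : Set (ℙ k (Fin (n + 1) → k))) : Prop :=
  ∀ T : Finset (ℙ k (Fin (n + 1) → k)), (T : Set (ℙ k (Fin (n + 1) → k))) ⊆ Z → T.card ≤ n + 1 →
    LinearIndepOn k Projectivization.rep (T : Set (ℙ k (Fin (n + 1) → k)))

/-- `Q P` holds for a general point `P`: it holds for all points of some non-empty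
(principal) Zariski open subset of projective `n`-space. -/
def ForGeneralPoint (Q : ℙ k (Fin (n + 1) → k) → Prop) : Prop :=
  ∃ (e : ℕ) (g : MvPolynomial (Fin (n + 1)) k), g.IsHomogeneous e ∧
    (∃ P : ℙ k (Fin (n + 1) → k), eval P.rep g ≠ 0) ∧
    ∀ P : ℙ k (Fin (n + 1) → k), eval P.rep g ≠ 0 → Q P

/-- `Z` admits an unexpected hypersurface of degree `d` with multiplicity `m` at a general
point: `dim [I_Z ∩ I_P ^ m]_d > max (0, dim [I_Z]_d - (m + n - 1).choose n)` for general `P`. -/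
def AdmitsUnexpected (Z : Set (ℙ k (Fin (n + 1) → k))) (d m : ℕ) : Prop :=
  ForGeneralPoint fun P : ℙ k (Fin (n + 1) → k) =>
    max 0 ((Module.finrank k (degPart (vanIdeal Z) d) : ℤ) - ((m + n - 1).choose n : ℤ)) <
      (Module.finrank k (degPart (vanIdeal Z ⊓ (vanIdeal {P}) ^ m) d) : ℤ)

end Definitions

/-! ### General facts -/

section General

variable {k : Type u} [Field k] {n : ℕ}

lemma eval_smul_of_isHomogeneous {F : MvPolynomial (Fin (n + 1)) k} {d : ℕ}
    (hF : F.IsHomogeneous d) (c : k) (v : Fin (n + 1) → k) :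
    eval (c • v) F = c ^ d * eval v F := by
  rw [eval_eq, eval_eq, Finset.mul_sum]
  refine Finset.sum_congr rfl fun s hs => ?_
  have hd : ∑ i ∈ s.support, s i = d := by
    have := hF.degree_eq_sum_deg_support hs
    simpa [Finsupp.degree] using this.symm
  have : ∏ i ∈ s.support, (c • v) i ^ s i = c ^ d * ∏ i ∈ s.support, v i ^ s i := by
    simp only [Pi.smul_apply, smul_eq_mul, mul_pow, Finset.prod_mul_distrib]
    rw [Finset.prod_pow_eq_pow_sum, hd]
  rw [this]; ring

lemma eval_rep_mk {F : MvPolynomial (Fin (n + 1)) k} {d : ℕ}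
    (hF : F.IsHomogeneous d) (v : Fin (n + 1) → k) (hv : v ≠ 0) :
    eval (Projectivization.mk k v hv).rep F = 0 ↔ eval v F = 0 := by
  obtain ⟨a, ha⟩ := Projectivization.exists_smul_eq_mk_rep k v hv
  rw [← ha]
  have : (a • v : Fin (n + 1) → k) = (a : k) • v := rfl
  rw [this, eval_smul_of_isHomogeneous hF]
  simp

lemma mem_vanIdeal_eval {Z : Set (ℙ k (Fin (n + 1) → k))} {F : MvPolynomial (Fin (n + 1)) k}
    (hF : F ∈ vanIdeal Z) : ∀ z ∈ Z, eval z.rep F = 0 := by
  intro z hz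
  have : vanIdeal Z ≤ RingHom.ker (eval z.rep) := by
    rw [vanIdeal, Ideal.span_le]
    rintro f ⟨-, hf⟩
    exact hf z hz
  exact this hF

lemma mem_degPart_vanIdeal {Z : Set (ℙ k (Fin (n + 1) → k))} {F : MvPolynomial (Fin (n + 1)) k}
    {d : ℕ} : F ∈ degPart (vanIdeal Z) d ↔ F.IsHomogeneous d ∧ ∀ z ∈ Z, eval z.rep F = 0 := by
  constructor
  · rintro ⟨h1, h2⟩
    exact ⟨h2, mem_vanIdeal_eval h1⟩
  · rintro ⟨h1, h2⟩
    exact ⟨Ideal.subset_span ⟨⟨d, h1⟩, h2⟩, h1⟩

instance finDim_homogeneous (d : ℕ) :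
    FiniteDimensional k (homogeneousSubmodule (Fin (n + 1)) k d) :=
  Module.Finite.iff_fg.mpr (homogeneousSubmodule_fg _ _ d)

instance finDim_degPart (I : Ideal (MvPolynomial (Fin (n + 1)) k)) (d : ℕ) :
    FiniteDimensional k (degPart I d) :=
  Submodule.finiteDimensional_of_le (S₂ := homogeneousSubmodule (Fin (n + 1)) k d) inf_le_right

end General

/-! ### Selection of points on a parametrised variety -/

section Selection

variable {k : Type u} [Field k] {n : ℕ}
  (Ψ : Fin (n + 1) → MvPolynomial (Fin (n + 1)) k)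

/-- The point with parameter `a` of the variety parametrised by `Ψ`. -/
noncomputable def pt (a : Fin (n + 1) → k) : Fin (n + 1) → k := fun i => eval a (Ψ i)

lemma eval_aeval (a : Fin (n + 1) → k) (F : MvPolynomial (Fin (n + 1)) k) :
    eval a (aeval Ψ F) = eval (pt Ψ a) F := by
  induction F using MvPolynomial.induction_on with
  | C c => simp
  | add p q hp hq => rw [map_add, map_add, map_add, hp, hq]
  | mul_X p i hp => rw [map_mul, map_mul, map_mul, hp, aeval_X, eval_X, pt]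

lemma exists_linear_form (T : Finset (ℙ k (Fin (n + 1) → k))) (hT : T.card ≤ n) :
    ∃ L : MvPolynomial (Fin (n + 1)) k, L.IsHomogeneous 1 ∧ L ≠ 0 ∧
      ∀ v ∈ Submodule.span k (Projectivization.rep '' (T : Set (ℙ k (Fin (n + 1) → k)))),
        eval v L = 0 := by
  classical
  have hlt : Submodule.span k (Projectivization.rep '' (T : Set (ℙ k (Fin (n + 1) → k)))) < ⊤ := by
    rw [lt_top_iff_ne_top]
    intro h
    have h1 : Module.finrank k (Submodule.span k
        (Projectivization.rep '' (T : Set (ℙ k (Fin (n + 1) → k))))) = n + 1 := by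
      rw [h, finrank_top]; simp
    have h2 : Module.finrank k (Submodule.span k
        (((T.image Projectivization.rep : Finset (Fin (n + 1) → k)) : Set (Fin (n + 1) → k)))) ≤
        (T.image Projectivization.rep).card := finrank_span_finset_le_card _
    rw [Finset.coe_image, h1] at h2
    have h3 : (T.image Projectivization.rep).card ≤ T.card := Finset.card_image_le
    omega
  obtain ⟨f, hf0, hf⟩ := Submodule.exists_le_ker_of_lt_top _ hlt
  have heval : ∀ v : Fin (n + 1) → k,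
      eval v (∑ i, C (f (fun j => if i = j then 1 else 0)) * X i :
        MvPolynomial (Fin (n + 1)) k) = f v := by
    intro v
    rw [map_sum, LinearMap.pi_apply_eq_sum_univ f v]
    refine Finset.sum_congr rfl fun i _ => ?_
    rw [eval_mul, eval_C, eval_X, smul_eq_mul, mul_comm]
  refine ⟨∑ i, C (f (fun j => if i = j then 1 else 0)) * X i, ?_, ?_, ?_⟩
  · exact IsHomogeneous.sum _ _ _ fun i _ => isHomogeneous_C_mul_X _ _
  · intro h0
    apply hf0
    refine LinearMap.ext fun v => ?_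
    rw [← heval v, h0]
    simp
  · intro v hv
    rw [heval]
    exact hf hv

variable [Infinite k]

lemma extend_step (h0 : ∀ a, pt Ψ a ≠ 0)
    (hlin : ∀ f : MvPolynomial (Fin (n + 1)) k, f.IsHomogeneous 1 → aeval Ψ f = 0 → f = 0)
    (Z : Finset (ℙ k (Fin (n + 1) → k))) (hZ : LinGenPos (Z : Set (ℙ k (Fin (n + 1) → k))))
    (F : MvPolynomial (Fin (n + 1)) k) (hF : aeval Ψ F ≠ 0) :
    ∃ a, LinGenPos (insert (Projectivization.mk k (pt Ψ a) (h0 a))
      (Z : Set (ℙ k (Fin (n + 1) → k)))) ∧ eval (pt Ψ a) F ≠ 0 := by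
  classical
  have hex : ∀ T : Finset (ℙ k (Fin (n + 1) → k)), ∃ L : MvPolynomial (Fin (n + 1)) k,
      L.IsHomogeneous 1 ∧ L ≠ 0 ∧ (T.card ≤ n →
      ∀ v ∈ Submodule.span k (Projectivization.rep '' (T : Set (ℙ k (Fin (n + 1) → k)))),
        eval v L = 0) := by
    intro T
    by_cases hT : T.card ≤ n
    · obtain ⟨L, h1, h2, h3⟩ := exists_linear_form T hT
      exact ⟨L, h1, h2, fun _ => h3⟩
    · exact ⟨X 0, isHomogeneous_X _ _, X_ne_zero _, fun h => absurd h hT⟩
  choose L hL1 hL2 hL3 using hex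
  have hprod : aeval Ψ F * ∏ T ∈ Z.powerset, aeval Ψ (L T) ≠ 0 := by
    refine mul_ne_zero hF (Finset.prod_ne_zero_iff.mpr fun T _ h => hL2 T (hlin _ (hL1 T) h))
  obtain ⟨a, ha⟩ : ∃ a, eval a (aeval Ψ F * ∏ T ∈ Z.powerset, aeval Ψ (L T)) ≠ 0 := by
    by_contra hcon
    push Not at hcon
    exact hprod (MvPolynomial.funext fun x => by rw [hcon x, map_zero])
  rw [map_mul, map_prod] at ha
  have ha1 := left_ne_zero_of_mul ha
  have ha2 := right_ne_zero_of_mul ha
  rw [Finset.prod_ne_zero_iff] at ha2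
  have hnot : ∀ T : Finset (ℙ k (Fin (n + 1) → k)), T ⊆ Z → T.card ≤ n →
      (Projectivization.mk k (pt Ψ a) (h0 a)).rep ∉
      Submodule.span k (Projectivization.rep '' (T : Set (ℙ k (Fin (n + 1) → k)))) := by
    intro T hTZ hTc hmem
    have h1 := ha2 T (Finset.mem_powerset.mpr hTZ)
    rw [eval_aeval] at h1
    have h2 := hL3 T hTc _ hmem
    rw [eval_rep_mk (hL1 T)] at h2
    exact h1 h2
  refine ⟨a, ?_, by rw [← eval_aeval]; exact ha1⟩
  intro T hT hTc
  by_cases hz : Projectivization.mk k (pt Ψ a) (h0 a) ∈ T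
  · have hsub : T.erase (Projectivization.mk k (pt Ψ a) (h0 a)) ⊆ Z := by
      intro t ht
      have h1 := Finset.mem_of_mem_erase ht
      have h2 := Finset.ne_of_mem_erase ht
      have h3 := hT (Finset.mem_coe.mpr h1)
      rcases h3 with h3 | h3
      · exact absurd h3 h2
      · exact Finset.mem_coe.mp h3
    have hcard : (T.erase (Projectivization.mk k (pt Ψ a) (h0 a))).card ≤ n := by
      rw [Finset.card_erase_of_mem hz]; omega
    have hind := hZ (T.erase (Projectivization.mk k (pt Ψ a) (h0 a)))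
      (by exact_mod_cast hsub) (by omega)
    have := hind.insert (hnot _ hsub hcard)
    rwa [← Finset.coe_insert, Finset.insert_erase hz] at this
  · refine hZ T ?_ hTc
    intro t ht
    rcases hT ht with h3 | h3
    · exact absurd (h3 ▸ Finset.mem_coe.mp ht) hz
    · exact h3

/-- Finitely many points of the parametrised variety, in linear general position, impose on
forms of degree `d` all the conditions that the variety imposes. -/
lemma exists_selection (h0 : ∀ a, pt Ψ a ≠ 0)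
    (hlin : ∀ f : MvPolynomial (Fin (n + 1)) k, f.IsHomogeneous 1 → aeval Ψ f = 0 → f = 0)
    (d : ℕ) :
    ∃ Z : Finset (ℙ k (Fin (n + 1) → k)), LinGenPos (Z : Set (ℙ k (Fin (n + 1) → k))) ∧
      (∀ z ∈ Z, ∃ a, z = Projectivization.mk k (pt Ψ a) (h0 a)) ∧
      ∀ F : MvPolynomial (Fin (n + 1)) k, F.IsHomogeneous d → (∀ z ∈ Z, eval z.rep F = 0) →
        aeval Ψ F = 0 := by
  classical
  -- all admissible sets
  let Good : Finset (ℙ k (Fin (n + 1) → k)) → Prop := fun Z =>
    LinGenPos (Z : Set (ℙ k (Fin (n + 1) → k))) ∧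
      (∀ z ∈ Z, ∃ a, z = Projectivization.mk k (pt Ψ a) (h0 a))
  have hgood0 : Good ∅ := by
    refine ⟨?_, by simp⟩
    intro T hT _
    have : T = ∅ := by
      rw [Finset.coe_empty] at hT
      exact Finset.coe_eq_empty.mp (Set.subset_empty_iff.mp hT)
    subst this
    simp
  let r : Finset (ℙ k (Fin (n + 1) → k)) → ℕ := fun Z =>
    Module.finrank k (degPart (vanIdeal (Z : Set (ℙ k (Fin (n + 1) → k)))) d)
  obtain ⟨Z, hZ, hmin⟩ : ∃ Z, Good Z ∧ ∀ Z', Good Z' → r Z ≤ r Z' := by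
    have hne : ∃ m, ∃ Z, Good Z ∧ r Z = m := ⟨_, ∅, hgood0, rfl⟩
    obtain ⟨Z, hZ, hr⟩ := Nat.find_spec hne
    exact ⟨Z, hZ, fun Z' hZ' => hr ▸ Nat.find_min' hne ⟨Z', hZ', rfl⟩⟩
  refine ⟨Z, hZ.1, hZ.2, fun F hF hFZ => ?_⟩
  by_contra hne
  obtain ⟨a, ha1, ha2⟩ := extend_step Ψ h0 hlin Z hZ.1 F hne
  have hgood : Good (insert (Projectivization.mk k (pt Ψ a) (h0 a)) Z) := by
    refine ⟨by rw [Finset.coe_insert]; exact ha1, ?_⟩
    intro z hz
    rcases Finset.mem_insert.mp hz with h | h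
    · exact ⟨a, h⟩
    · exact hZ.2 z h
  have hlt : degPart (vanIdeal ((insert (Projectivization.mk k (pt Ψ a) (h0 a)) Z :
      Finset (ℙ k (Fin (n + 1) → k))) : Set (ℙ k (Fin (n + 1) → k)))) d <
      degPart (vanIdeal (Z : Set (ℙ k (Fin (n + 1) → k)))) d := by
    refine lt_of_le_of_ne ?_ ?_
    · intro G hG
      rw [mem_degPart_vanIdeal] at hG ⊢
      exact ⟨hG.1, fun z hz => hG.2 z (Finset.mem_coe.mpr
        (Finset.mem_insert_of_mem (Finset.mem_coe.mp hz)))⟩
    · intro h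
      have h1 : F ∈ degPart (vanIdeal (Z : Set (ℙ k (Fin (n + 1) → k)))) d :=
        mem_degPart_vanIdeal.mpr ⟨hF, fun z hz => hFZ z (Finset.mem_coe.mp hz)⟩
      rw [← h, mem_degPart_vanIdeal] at h1
      have := h1.2 _ (Finset.mem_coe.mpr (Finset.mem_insert_self _ _))
      rw [eval_rep_mk hF] at this
      exact ha2 this
  have := Submodule.finrank_lt_finrank_of_lt hlt
  have h2 := hmin _ hgood
  exact absurd h2 (not_le.mpr this)

end Selection

/-! ### The cone over the curve `(1 : t : t ^ 3 : t ^ 9)` -/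

section Example

variable {k : Type u} [Field k] {m : ℕ}

/-- Index of the first variable. -/
abbrev i0 : Fin (m + 3 + 1) := 0
/-- Index of the second variable. -/
abbrev i1 : Fin (m + 3 + 1) := Fin.succ 0
/-- Index of the third variable. -/
abbrev i2 : Fin (m + 3 + 1) := Fin.succ (Fin.succ 0)
/-- Index of the fourth variable. -/
abbrev i3 : Fin (m + 3 + 1) := Fin.succ (Fin.succ (Fin.succ 0))

/-- Exponents of the monomial parametrisation. -/
noncomputable def ex : Fin (m + 3 + 1) → (Fin (m + 3 + 1) →₀ ℕ) :=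
  Fin.cons 0 (Fin.cons (Finsupp.single i1 1) (Fin.cons (Finsupp.single i1 3)
    (Fin.cons (Finsupp.single i1 9) (fun j : Fin m => Finsupp.single j.succ.succ.succ.succ 1))))

/-- The monomial parametrisation. -/
noncomputable def Psi : Fin (m + 3 + 1) → MvPolynomial (Fin (m + 3 + 1)) k :=
  fun i => monomial (ex i) 1

/-- The induced map on exponents. -/
noncomputable def EE (s : Fin (m + 3 + 1) →₀ ℕ) : Fin (m + 3 + 1) →₀ ℕ := ∑ i, s i • ex i

lemma EE_eq (s : Fin (m + 3 + 1) →₀ ℕ) :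
    EE s = s i1 • Finsupp.single i1 1 + s i2 • Finsupp.single i1 3 + s i3 • Finsupp.single i1 9 +
      ∑ j : Fin m, s j.succ.succ.succ.succ • Finsupp.single j.succ.succ.succ.succ 1 := by
  rw [EE, Fin.sum_univ_succ, Fin.sum_univ_succ, Fin.sum_univ_succ, Fin.sum_univ_succ]
  simp only [ex, Fin.cons_zero, Fin.cons_succ, smul_zero, zero_add, add_assoc]

lemma EE_i1 (s : Fin (m + 3 + 1) →₀ ℕ) : EE s i1 = s i1 + 3 * s i2 + 9 * s i3 := by
  rw [EE_eq]
  simp only [Finsupp.add_apply, Finsupp.smul_apply, Finsupp.single_eq_same, smul_eq_mul,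
    Finsupp.finsetSum_apply]
  have : ∀ j : Fin m, (Finsupp.single j.succ.succ.succ.succ 1 : Fin (m + 3 + 1) →₀ ℕ) i1 = 0 := by
    intro j
    rw [Finsupp.single_apply, if_neg]
    intro h
    exact Fin.succ_ne_zero _ (Fin.succ_injective _ h)
  simp only [this, mul_zero, Finset.sum_const_zero]
  ring

lemma EE_succ (s : Fin (m + 3 + 1) →₀ ℕ) (j : Fin m) :
    EE s j.succ.succ.succ.succ = s j.succ.succ.succ.succ := by
  rw [EE_eq]
  simp only [Finsupp.add_apply, Finsupp.smul_apply, smul_eq_mul, Finsupp.finsetSum_apply]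
  have h1 : ∀ c : ℕ, (Finsupp.single i1 c : Fin (m + 3 + 1) →₀ ℕ) j.succ.succ.succ.succ = 0 := by
    intro c
    rw [Finsupp.single_apply, if_neg]
    intro h
    exact Fin.succ_ne_zero _ (Fin.succ_injective _ h).symm
  simp only [h1, mul_zero, zero_add]
  rw [Finset.sum_eq_single j]
  · simp
  · intro b _ hb
    rw [Finsupp.single_apply, if_neg, mul_zero]
    intro h
    exact hb (Fin.succ_injective _ (Fin.succ_injective _ (Fin.succ_injective _
      (Fin.succ_injective _ h))))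
  · simp

lemma degree_eq (s : Fin (m + 3 + 1) →₀ ℕ) :
    s.degree = s i0 + (s i1 + (s i2 + (s i3 + ∑ j : Fin m, s j.succ.succ.succ.succ))) := by
  rw [Finsupp.degree_eq_sum, Fin.sum_univ_succ, Fin.sum_univ_succ, Fin.sum_univ_succ,
    Fin.sum_univ_succ]

lemma EE_inj {s s' : Fin (m + 3 + 1) →₀ ℕ} (hd : s.degree = s'.degree)
    (h1 : s i1 ≤ 2) (h2 : s i2 ≤ 2) (h1' : s' i1 ≤ 2) (h2' : s' i2 ≤ 2) (h : EE s = EE s') :
    s = s' := by
  have hs : ∀ j : Fin m, s j.succ.succ.succ.succ = s' j.succ.succ.succ.succ := by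
    intro j
    rw [← EE_succ s j, h, EE_succ]
  have hv : s i1 + 3 * s i2 + 9 * s i3 = s' i1 + 3 * s' i2 + 9 * s' i3 := by
    rw [← EE_i1, h, EE_i1]
  rw [degree_eq, degree_eq, Finset.sum_congr rfl fun j _ => hs j] at hd
  have e1 : s i1 = s' i1 := by omega
  have e2 : s i2 = s' i2 := by omega
  have e3 : s i3 = s' i3 := by omega
  have e0 : s i0 = s' i0 := by omega
  ext i
  refine Fin.cases e0 (fun i => ?_) i
  refine Fin.cases e1 (fun i => ?_) i
  refine Fin.cases e2 (fun i => ?_) i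
  refine Fin.cases e3 (fun i => ?_) i
  exact hs i

lemma aeval_Psi_monomial (s : Fin (m + 3 + 1) →₀ ℕ) (c : k) :
    aeval Psi (monomial s c) = monomial (EE s) c := by
  rw [aeval_monomial, EE, monomial_sum_index]
  congr 1
  rw [Finsupp.prod_fintype _ _ (fun i => pow_zero _)]
  refine Finset.prod_congr rfl fun i _ => ?_
  rw [Psi, monomial_pow, one_pow]

lemma key_lemma {F : MvPolynomial (Fin (m + 3 + 1)) k} {d : ℕ} (hF : F.IsHomogeneous d)
    (hs : ∀ s ∈ F.support, s i1 ≤ 2 ∧ s i2 ≤ 2) (h : aeval (Psi (k := k)) F = 0) : F = 0 := by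
  classical
  ext s
  rw [coeff_zero]
  by_contra hne
  have hmem : s ∈ F.support := mem_support_iff.mpr hne
  have h1 : coeff (EE s) (aeval (Psi (k := k)) F) = coeff s F := by
    conv_lhs => rw [F.as_sum]
    rw [map_sum, coeff_sum]
    simp only [aeval_Psi_monomial, coeff_monomial]
    rw [Finset.sum_eq_single s]
    · simp
    · intro t ht hts
      rw [if_neg]
      intro he
      refine hts (EE_inj ?_ (hs t ht).1 (hs t ht).2 (hs s hmem).1 (hs s hmem).2 he)
      rw [Finsupp.degree_apply, Finsupp.degree_apply,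
        ← hF.degree_eq_sum_deg_support ht, ← hF.degree_eq_sum_deg_support hmem]
    · intro hn; exact absurd hmem hn
  rw [h, coeff_zero] at h1
  exact hne h1.symm

lemma hlin_Psi (f : MvPolynomial (Fin (m + 3 + 1)) k) (hf : f.IsHomogeneous 1)
    (h : aeval (Psi (k := k)) f = 0) : f = 0 := by
  refine key_lemma hf (fun s hs => ?_) h
  have h1 : s.degree = 1 := by
    have := hf.degree_eq_sum_deg_support hs
    rw [Finsupp.degree_apply]; exact this.symm
  rw [degree_eq] at h1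
  constructor <;> omega

/-- Exponents of degree five which are not in normal form. -/
noncomputable def NN (m : ℕ) : Finset (Fin (m + 3 + 1) →₀ ℕ) :=
  (Finset.univ.finsuppAntidiag 5).filter fun s => 3 ≤ s i1 ∨ 3 ≤ s i2

lemma card_NN_le (m : ℕ) : (NN m).card ≤ (4 + (m + 3) - 1).choose (m + 3) := by
  classical
  have hsub : NN m ⊆ ((Finset.univ : Finset (Fin (m + 3 + 1))).finsuppAntidiag 2).image
      (fun s => s + Finsupp.single i1 3) ∪
      ((Finset.univ : Finset (Fin (m + 3 + 1))).finsuppAntidiag 2).image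
      (fun s => s + Finsupp.single i2 3) := by
    intro s hs
    rw [NN, Finset.mem_filter, Finset.mem_finsuppAntidiag] at hs
    obtain ⟨⟨hs1, -⟩, hs2⟩ := hs
    have aux : ∀ i : Fin (m + 3 + 1), 3 ≤ s i →
        s ∈ ((Finset.univ : Finset (Fin (m + 3 + 1))).finsuppAntidiag 2).image
          (fun s => s + Finsupp.single i 3) := by
      intro i hi
      have hle : Finsupp.single i 3 ≤ s := by
        intro j
        rw [Finsupp.single_apply]
        split_ifs with h
        · rw [← h]; exact hi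
        · exact Nat.zero_le _
      refine Finset.mem_image.mpr ⟨s - Finsupp.single i 3, ?_, tsub_add_cancel_of_le hle⟩
      rw [Finset.mem_finsuppAntidiag]
      refine ⟨?_, fun _ _ => Finset.mem_univ _⟩
      have h1 : (Finset.univ.sum fun j =>
          (s - Finsupp.single i 3 + Finsupp.single i 3 : Fin (m + 3 + 1) →₀ ℕ) j) = 5 := by
        rw [tsub_add_cancel_of_le hle]; exact hs1
      simp only [Finsupp.add_apply, Finset.sum_add_distrib] at h1
      have h2 : (Finset.univ.sum fun j => (Finsupp.single i 3 : Fin (m + 3 + 1) →₀ ℕ) j) = 3 := by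
        rw [Finset.sum_eq_single i]
        · simp
        · intro b _ hb; rw [Finsupp.single_apply, if_neg (Ne.symm hb)]
        · simp
      rw [h2] at h1
      change (Finset.univ.sum fun j => (s - Finsupp.single i 3 : Fin (m + 3 + 1) →₀ ℕ) j) = 2
      omega
    rw [Finset.mem_union]
    rcases hs2 with h | h
    · exact Or.inl (aux _ h)
    · exact Or.inr (aux _ h)
  have h1 := (Finset.card_le_card hsub).trans (Finset.card_union_le _ _)
  have h2 : ∀ i : Fin (m + 3 + 1),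
      (((Finset.univ : Finset (Fin (m + 3 + 1))).finsuppAntidiag 2).image
      (fun s => s + Finsupp.single i 3)).card ≤ (m + 5).choose 2 := by
    intro i
    refine Finset.card_image_le.trans ?_
    rw [Finset.card_finsuppAntidiag_nat_eq_choose, Finset.card_univ, Fintype.card_fin]
    have : m + 3 + 1 + 2 - 1 = m + 5 := by omega
    rw [this]
  have h3 := h2 i1
  have h4 := h2 i2
  have h5 : (4 + (m + 3) - 1).choose (m + 3) = (m + 6).choose 3 := by
    have : 4 + (m + 3) - 1 = m + 6 := by omega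
    rw [this]
    exact (Nat.choose_symm_of_eq_add (by omega))
  have h6 : (m + 5 + 1) * (m + 5).choose 2 = (m + 5 + 1).choose (2 + 1) * (2 + 1) :=
    Nat.add_one_mul_choose_eq (m + 5) 2
  rw [h5]
  have h7 : (m + 5 + 1) * (m + 5).choose 2 = m * (m + 5).choose 2 + 6 * (m + 5).choose 2 := by ring
  have h8 : (m + 5 + 1).choose (2 + 1) = (m + 6).choose 3 := rfl
  rw [h8] at h6
  have h9 : 0 ≤ m * (m + 5).choose 2 := Nat.zero_le _
  omega

lemma finrank_le (V : Submodule k (MvPolynomial (Fin (m + 3 + 1)) k))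
    (hV : ∀ F ∈ V, F.IsHomogeneous 5 ∧ aeval (Psi (k := k)) F = 0) :
    Module.finrank k V ≤ (NN m).card := by
  classical
  let f : V →ₗ[k] (NN m → k) :=
    LinearMap.pi fun s => (lcoeff k (s : Fin (m + 3 + 1) →₀ ℕ)).comp V.subtype
  have hf : Function.Injective f := by
    rw [← LinearMap.ker_eq_bot, LinearMap.ker_eq_bot']
    rintro ⟨F, hF⟩ h
    obtain ⟨h1, h2⟩ := hV F hF
    have h3 : F = 0 := by
      refine key_lemma h1 (fun s hs => ?_) h2
      by_contra hcon
      have hdeg : s.degree = 5 := by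
        have := h1.degree_eq_sum_deg_support hs
        rw [Finsupp.degree_apply]; exact this.symm
      have hmem : s ∈ NN m := by
        rw [NN, Finset.mem_filter, Finset.mem_finsuppAntidiag]
        refine ⟨⟨?_, fun _ _ => Finset.mem_univ _⟩, ?_⟩
        · rw [← hdeg, Finsupp.degree_eq_sum]
        · omega
      have := congrFun h ⟨s, hmem⟩
      exact (mem_support_iff.mp hs) this
    exact Subtype.ext h3
  have := LinearMap.finrank_le_finrank_of_injective hf
  rwa [Module.finrank_fintype_fun_eq_card, Fintype.card_coe] at this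

/-- The first cubic. -/
noncomputable def G1 : MvPolynomial (Fin (m + 3 + 1)) k := X i1 ^ 3 - X i0 ^ 2 * X i2
/-- The second cubic. -/
noncomputable def G2 : MvPolynomial (Fin (m + 3 + 1)) k := X i2 ^ 3 - X i0 ^ 2 * X i3

section Subresultant

variable (p : Fin (m + 3 + 1) → k)

/-- Linear forms vanishing at `p`. -/
noncomputable def LL (i : Fin (m + 3 + 1)) : MvPolynomial (Fin (m + 3 + 1)) k :=
  C (p i0) * X i - C (p i) * X i0

/-- Coefficients of the two cubics expanded at `p`. -/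
noncomputable def g0 : MvPolynomial (Fin (m + 3 + 1)) k := C (p i1 ^ 3 - p i0 ^ 2 * p i2)
noncomputable def g1 : MvPolynomial (Fin (m + 3 + 1)) k :=
  C (3 * p i1 ^ 2) * LL p i1 - C (p i0 ^ 2) * LL p i2
noncomputable def g2 : MvPolynomial (Fin (m + 3 + 1)) k := C (3 * p i1) * LL p i1 ^ 2
noncomputable def g3 : MvPolynomial (Fin (m + 3 + 1)) k := LL p i1 ^ 3
noncomputable def h0 : MvPolynomial (Fin (m + 3 + 1)) k := C (p i2 ^ 3 - p i0 ^ 2 * p i3)
noncomputable def h1 : MvPolynomial (Fin (m + 3 + 1)) k :=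
  C (3 * p i2 ^ 2) * LL p i2 - C (p i0 ^ 2) * LL p i3
noncomputable def h2 : MvPolynomial (Fin (m + 3 + 1)) k := C (3 * p i2) * LL p i2 ^ 2
noncomputable def h3 : MvPolynomial (Fin (m + 3 + 1)) k := LL p i2 ^ 3

noncomputable def M1 : MvPolynomial (Fin (m + 3 + 1)) k :=
  -(h0 p * (g0 p * h1 p - g1 p * h0 p))
noncomputable def M2 : MvPolynomial (Fin (m + 3 + 1)) k :=
  g0 p * (h1 p * h1 p - h2 p * h0 p) - h0 p * (g1 p * h1 p - g2 p * h0 p)
noncomputable def M3 : MvPolynomial (Fin (m + 3 + 1)) k :=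
  g0 p * (g0 p * h1 p - g1 p * h0 p)
noncomputable def M4 : MvPolynomial (Fin (m + 3 + 1)) k :=
  g0 p * (g0 p * h2 p - g1 p * h1 p) + h0 p * (g1 p * g1 p - g2 p * g0 p)

/-- The first subresultant of the two cubics in the direction of `p`: the unexpected quintic. -/
noncomputable def SS : MvPolynomial (Fin (m + 3 + 1)) k :=
  X i0 * (-(g3 p * M1 p) + g2 p * M2 p - h3 p * M3 p + h2 p * M4 p) +
    (g3 p * M2 p + h3 p * M4 p)

lemma SS_eq : SS p = C (p i0 ^ 3) * G1 * (-(X i0 * M1 p) + M2 p) +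
    C (p i0 ^ 3) * G2 * (-(X i0 * M3 p) + M4 p) := by
  have e1 : C (p i0 ^ 3) * G1 = g0 p * X i0 ^ 3 + g1 p * X i0 ^ 2 + g2 p * X i0 + g3 p := by
    simp only [G1, g0, g1, g2, g3, LL, C_mul, C_pow, C_sub]
    simp only [map_ofNat]
    ring
  have e2 : C (p i0 ^ 3) * G2 = h0 p * X i0 ^ 3 + h1 p * X i0 ^ 2 + h2 p * X i0 + h3 p := by
    simp only [G2, h0, h1, h2, h3, LL, C_mul, C_pow, C_sub]
    simp only [map_ofNat]
    ring
  rw [e1, e2, SS, M1, M2, M3, M4]
  ring

lemma LL_hom (i : Fin (m + 3 + 1)) : (LL p i).IsHomogeneous 1 :=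
  (isHomogeneous_C_mul_X _ _).sub (isHomogeneous_C_mul_X _ _)

lemma g0_hom : (g0 p).IsHomogeneous 0 := isHomogeneous_C _ _
lemma h0_hom : (h0 p).IsHomogeneous 0 := isHomogeneous_C _ _
lemma g1_hom : (g1 p).IsHomogeneous 1 := ((LL_hom p _).C_mul _).sub ((LL_hom p _).C_mul _)
lemma h1_hom : (h1 p).IsHomogeneous 1 := ((LL_hom p _).C_mul _).sub ((LL_hom p _).C_mul _)
lemma g2_hom : (g2 p).IsHomogeneous 2 := ((LL_hom p _).pow 2).C_mul _
lemma h2_hom : (h2 p).IsHomogeneous 2 := ((LL_hom p _).pow 2).C_mul _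
lemma g3_hom : (g3 p).IsHomogeneous 3 := (LL_hom p _).pow 3
lemma h3_hom : (h3 p).IsHomogeneous 3 := (LL_hom p _).pow 3

lemma M1_hom : (M1 p).IsHomogeneous 1 :=
  ((h0_hom p).mul (((g0_hom p).mul (h1_hom p)).sub ((g1_hom p).mul (h0_hom p)))).neg
lemma M3_hom : (M3 p).IsHomogeneous 1 :=
  (g0_hom p).mul (((g0_hom p).mul (h1_hom p)).sub ((g1_hom p).mul (h0_hom p)))
lemma M2_hom : (M2 p).IsHomogeneous 2 :=
  ((g0_hom p).mul (((h1_hom p).mul (h1_hom p)).sub ((h2_hom p).mul (h0_hom p)))).sub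
    ((h0_hom p).mul (((g1_hom p).mul (h1_hom p)).sub ((g2_hom p).mul (h0_hom p))))
lemma M4_hom : (M4 p).IsHomogeneous 2 :=
  IsHomogeneous.add
    ((g0_hom p).mul (IsHomogeneous.sub (n := 2)
      (by simpa using (g0_hom p).mul (h2_hom p)) (by simpa using (g1_hom p).mul (h1_hom p))))
    ((h0_hom p).mul (((g1_hom p).mul (g1_hom p)).sub ((g2_hom p).mul (g0_hom p))))

lemma SS_hom : (SS p).IsHomogeneous 5 := by
  have hA : (-(g3 p * M1 p) + g2 p * M2 p - h3 p * M3 p + h2 p * M4 p).IsHomogeneous 4 :=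
    ((((g3_hom p).mul (M1_hom p)).neg.add ((g2_hom p).mul (M2_hom p))).sub
      ((h3_hom p).mul (M3_hom p))).add ((h2_hom p).mul (M4_hom p))
  have hB : (g3 p * M2 p + h3 p * M4 p).IsHomogeneous 5 :=
    ((g3_hom p).mul (M2_hom p)).add ((h3_hom p).mul (M4_hom p))
  exact ((isHomogeneous_X k i0).mul hA).add hB

lemma SS_mem (I : Ideal (MvPolynomial (Fin (m + 3 + 1)) k)) (hI : ∀ i, LL p i ∈ I) :
    SS p ∈ I ^ 4 := by
  have hg1 : g1 p ∈ I ^ 1 := by
    rw [pow_one]
    exact I.sub_mem (I.mul_mem_left _ (hI _)) (I.mul_mem_left _ (hI _))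
  have hh1 : h1 p ∈ I ^ 1 := by
    rw [pow_one]
    exact I.sub_mem (I.mul_mem_left _ (hI _)) (I.mul_mem_left _ (hI _))
  have hg2 : g2 p ∈ I ^ 2 := Ideal.mul_mem_left _ _ (Ideal.pow_mem_pow (hI _) 2)
  have hh2 : h2 p ∈ I ^ 2 := Ideal.mul_mem_left _ _ (Ideal.pow_mem_pow (hI _) 2)
  have hg3 : g3 p ∈ I ^ 3 := Ideal.pow_mem_pow (hI _) 3
  have hh3 : h3 p ∈ I ^ 3 := Ideal.pow_mem_pow (hI _) 3
  have hM1 : M1 p ∈ I ^ 1 := (I ^ 1).neg_mem ((I ^ 1).mul_mem_left _
    ((I ^ 1).sub_mem ((I ^ 1).mul_mem_left _ hh1) ((I ^ 1).mul_mem_right _ hg1)))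
  have hM3 : M3 p ∈ I ^ 1 := (I ^ 1).mul_mem_left _
    ((I ^ 1).sub_mem ((I ^ 1).mul_mem_left _ hh1) ((I ^ 1).mul_mem_right _ hg1))
  have hprod : ∀ {a b : ℕ} {x y : MvPolynomial (Fin (m + 3 + 1)) k}, x ∈ I ^ a → y ∈ I ^ b →
      x * y ∈ I ^ (a + b) := by
    intro a b x y hx hy
    rw [pow_add]; exact Ideal.mul_mem_mul hx hy
  have hM2 : M2 p ∈ I ^ 2 := by
    refine (I ^ 2).sub_mem ((I ^ 2).mul_mem_left _ ((I ^ 2).sub_mem (hprod hh1 hh1)
      ((I ^ 2).mul_mem_right _ hh2))) ((I ^ 2).mul_mem_left _ ((I ^ 2).sub_mem (hprod hg1 hh1)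
      ((I ^ 2).mul_mem_right _ hg2)))
  have hM4 : M4 p ∈ I ^ 2 := by
    refine (I ^ 2).add_mem ((I ^ 2).mul_mem_left _ ((I ^ 2).sub_mem ((I ^ 2).mul_mem_left _ hh2)
      (hprod hg1 hh1))) ((I ^ 2).mul_mem_left _ ((I ^ 2).sub_mem (hprod hg1 hg1)
      ((I ^ 2).mul_mem_right _ hg2)))
  have hA : -(g3 p * M1 p) + g2 p * M2 p - h3 p * M3 p + h2 p * M4 p ∈ I ^ 4 :=
    (I ^ 4).add_mem ((I ^ 4).sub_mem ((I ^ 4).add_mem ((I ^ 4).neg_mem (hprod hg3 hM1))
      (hprod hg2 hM2)) (hprod hh3 hM3)) (hprod hh2 hM4)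
  have hB : g3 p * M2 p + h3 p * M4 p ∈ I ^ 4 :=
    Ideal.pow_le_pow_right (by norm_num : 4 ≤ 5) ((I ^ 5).add_mem (hprod hg3 hM2) (hprod hh3 hM4))
  exact (I ^ 4).add_mem ((I ^ 4).mul_mem_left _ hA) hB

/-- The value of the quintic at the coordinate point `e_2`, as a polynomial in `p`. -/
noncomputable def gen : MvPolynomial (Fin (m + 3 + 1)) k :=
  X i0 ^ 3 * ((X i1 ^ 3 - X i0 ^ 2 * X i2) * ((X i1 ^ 3 - X i0 ^ 2 * X i2) *
    (C 3 * X i2 * X i0 ^ 2) + C 3 * X i2 ^ 2 * X i0 ^ 4) +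
    (X i2 ^ 3 - X i0 ^ 2 * X i3) * X i0 ^ 6)

lemma i10 : (i1 : Fin (m + 3 + 1)) ≠ i0 := Fin.succ_ne_zero _
lemma i20 : (i2 : Fin (m + 3 + 1)) ≠ i0 := Fin.succ_ne_zero _
lemma i30 : (i3 : Fin (m + 3 + 1)) ≠ i0 := Fin.succ_ne_zero _
lemma i21 : (i2 : Fin (m + 3 + 1)) ≠ i1 := fun h => Fin.succ_ne_zero _ (Fin.succ_injective _ h)
lemma i31 : (i3 : Fin (m + 3 + 1)) ≠ i1 := fun h => Fin.succ_ne_zero _ (Fin.succ_injective _ h)
lemma i32 : (i3 : Fin (m + 3 + 1)) ≠ i2 := fun h =>
  Fin.succ_ne_zero _ (Fin.succ_injective _ (Fin.succ_injective _ h))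

lemma eval_SS : eval (Pi.single i2 1 : Fin (m + 3 + 1) → k) (SS p) = eval p gen := by
  simp only [SS, M1, M2, M3, M4, g0, g1, g2, g3, h0, h1, h2, h3, LL, gen, eval_add, eval_mul,
    eval_sub, eval_neg, eval_pow, eval_C, eval_X, Pi.single_eq_same, Pi.single_apply,
    if_neg i32, if_neg i20.symm, if_neg i21.symm]
  ring

lemma gen_hom : (gen : MvPolynomial (Fin (m + 3 + 1)) k).IsHomogeneous 12 := by
  have hX : ∀ i : Fin (m + 3 + 1), ∀ d : ℕ, (X i ^ d : MvPolynomial (Fin (m + 3 + 1)) k).IsHomogeneous d := by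
    intro i d
    simpa using (isHomogeneous_X k i).pow d
  have hc : (X i1 ^ 3 - X i0 ^ 2 * X i2 : MvPolynomial (Fin (m + 3 + 1)) k).IsHomogeneous 3 :=
    (hX _ 3).sub ((hX _ 2).mul (isHomogeneous_X k _))
  have hc' : (X i2 ^ 3 - X i0 ^ 2 * X i3 : MvPolynomial (Fin (m + 3 + 1)) k).IsHomogeneous 3 :=
    (hX _ 3).sub ((hX _ 2).mul (isHomogeneous_X k _))
  have h3 : (C 3 : MvPolynomial (Fin (m + 3 + 1)) k).IsHomogeneous 0 := isHomogeneous_C _ _
  have e1 : ((X i1 ^ 3 - X i0 ^ 2 * X i2) * (C 3 * X i2 * X i0 ^ 2) :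
      MvPolynomial (Fin (m + 3 + 1)) k).IsHomogeneous 6 := by
    simpa using hc.mul ((h3.mul (isHomogeneous_X k i2)).mul (hX i0 2))
  have e2 : (C 3 * X i2 ^ 2 * X i0 ^ 4 : MvPolynomial (Fin (m + 3 + 1)) k).IsHomogeneous 6 := by
    simpa using (h3.mul (hX i2 2)).mul (hX i0 4)
  exact (hX i0 3).mul ((hc.mul (e1.add e2)).add (hc'.mul (hX i0 6)))

end Subresultant

lemma pt_i0 (a : Fin (m + 3 + 1) → k) : pt Psi a i0 = 1 := by
  simp [pt, Psi, ex, i0]

lemma pt_i1 (a : Fin (m + 3 + 1) → k) : pt Psi a i1 = a i1 := by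
  have h : ex (i1 : Fin (m + 3 + 1)) = Finsupp.single i1 1 := rfl
  rw [pt, Psi, h, eval_monomial, Finsupp.prod_single_index (h := fun n e => a n ^ e) (pow_zero _)]
  ring

lemma pt_i2 (a : Fin (m + 3 + 1) → k) : pt Psi a i2 = a i1 ^ 3 := by
  have h : ex (i2 : Fin (m + 3 + 1)) = Finsupp.single i1 3 := rfl
  rw [pt, Psi, h, eval_monomial, Finsupp.prod_single_index (h := fun n e => a n ^ e) (pow_zero _)]
  ring

lemma pt_i3 (a : Fin (m + 3 + 1) → k) : pt Psi a i3 = a i1 ^ 9 := by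
  have h : ex (i3 : Fin (m + 3 + 1)) = Finsupp.single i1 9 := rfl
  rw [pt, Psi, h, eval_monomial, Finsupp.prod_single_index (h := fun n e => a n ^ e) (pow_zero _)]
  ring

lemma pt_ne (a : Fin (m + 3 + 1) → k) : pt Psi a ≠ 0 := by
  intro h
  have := congrFun h i0
  rw [pt_i0] at this
  exact one_ne_zero this

lemma eval_pt_SS (p a : Fin (m + 3 + 1) → k) : eval (pt Psi a) (SS p) = 0 := by
  have h1 : eval (pt Psi a) (G1 : MvPolynomial (Fin (m + 3 + 1)) k) = 0 := by
    simp only [G1, eval_sub, eval_mul, eval_pow, eval_X]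
    rw [pt_i0, pt_i1, pt_i2]
    ring
  have h2 : eval (pt Psi a) (G2 : MvPolynomial (Fin (m + 3 + 1)) k) = 0 := by
    simp only [G2, eval_sub, eval_mul, eval_pow, eval_X]
    rw [pt_i0, pt_i2, pt_i3]
    ring
  rw [SS_eq]
  simp only [eval_add, eval_mul, h1, h2]
  ring

end Example

/-- **Negative answer to Q1 in every dimension `n ≥ 3`.** -/
theorem result (k : Type u) [Field k] [Infinite k] (n : ℕ) (hn : 3 ≤ n) :
    ∃ Z : Set (ℙ k (Fin (n + 1) → k)), Z.Finite ∧ NonDegenerate Z ∧ LinGenPos Z ∧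
      AdmitsUnexpected Z 5 4 := by
  obtain ⟨m, rfl⟩ : ∃ m, n = m + 3 := ⟨n - 3, by omega⟩
  obtain ⟨Z, hZ1, hZ2, hZ3⟩ := exists_selection (k := k) (Psi (m := m)) pt_ne hlin_Psi 5
  refine ⟨(Z : Set (ℙ k (Fin (m + 3 + 1) → k))), Z.finite_toSet, ?_, hZ1, ?_⟩
  · intro f hf hfZ
    refine hlin_Psi f hf ?_
    have h1 : (X i0 ^ 4 * f : MvPolynomial (Fin (m + 3 + 1)) k).IsHomogeneous 5 := by
      have h4 : (X i0 ^ 4 : MvPolynomial (Fin (m + 3 + 1)) k).IsHomogeneous 4 := by
        simpa using (isHomogeneous_X k (i0 : Fin (m + 3 + 1))).pow 4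
      exact h4.mul hf
    have h2 := hZ3 _ h1 (fun z hz => by rw [eval_mul, hfZ z (Finset.mem_coe.mpr hz), mul_zero])
    rw [map_mul, map_pow, aeval_X] at h2
    have h3 : (Psi i0 : MvPolynomial (Fin (m + 3 + 1)) k) = 1 := by
      simp [Psi, ex, i0]
    rwa [h3, one_pow, one_mul] at h2
  · refine ⟨12, gen, gen_hom, ?_, ?_⟩
    · -- the open set is non-empty
      let q : Fin (m + 3 + 1) → k := fun i => if i = i0 then 1 else if i = i3 then 1 else 0
      have hq0 : q i0 = 1 := if_pos rfl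
      have hq1 : q i1 = 0 := (if_neg i10).trans (if_neg i31.symm)
      have hq2 : q i2 = 0 := (if_neg i20).trans (if_neg i32.symm)
      have hq3 : q i3 = 1 := (if_neg i30).trans (if_pos rfl)
      have hq : q ≠ 0 := by
        intro h
        have := congrFun h i0
        rw [hq0] at this
        exact one_ne_zero this
      refine ⟨Projectivization.mk k q hq, ?_⟩
      intro h
      rw [eval_rep_mk gen_hom] at h
      simp only [gen, eval_mul, eval_pow, eval_X, eval_add, eval_sub, eval_C, hq0, hq1, hq2,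
        hq3] at h
      norm_num at h
    · intro P hP
      have hfin : Module.finrank k (degPart (vanIdeal (Z : Set (ℙ k (Fin (m + 3 + 1) → k)))) 5) ≤
          (4 + (m + 3) - 1).choose (m + 3) := by
        refine (finrank_le _ fun F hF => ?_).trans (card_NN_le m)
        rw [mem_degPart_vanIdeal] at hF
        exact ⟨hF.1, hZ3 F hF.1 fun z hz => hF.2 z (Finset.mem_coe.mpr hz)⟩
      have hSne : SS P.rep ≠ 0 := by
        intro h
        have := eval_SS P.rep
        rw [h, map_zero] at this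
        exact hP this.symm
      have hSmem : SS P.rep ∈ degPart (vanIdeal (Z : Set (ℙ k (Fin (m + 3 + 1) → k))) ⊓
          (vanIdeal {P}) ^ 4) 5 := by
        refine ⟨⟨?_, ?_⟩, SS_hom _⟩
        · refine Ideal.subset_span ⟨⟨5, SS_hom _⟩, fun z hz => ?_⟩
          obtain ⟨a, rfl⟩ := hZ2 z (Finset.mem_coe.mp hz)
          rw [eval_rep_mk (SS_hom _)]
          exact eval_pt_SS _ _
        · refine SS_mem _ _ fun i => Ideal.subset_span ⟨⟨1, LL_hom _ _⟩, ?_⟩
          intro z hz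
          rw [Set.mem_singleton_iff] at hz
          subst hz
          simp only [LL, eval_sub, eval_mul, eval_C, eval_X]
          ring
      have hpos : 0 < Module.finrank k (degPart (vanIdeal (Z : Set (ℙ k (Fin (m + 3 + 1) → k))) ⊓
          (vanIdeal {P}) ^ 4) 5) := by
        rw [Module.finrank_pos_iff_exists_ne_zero]
        refine ⟨⟨SS P.rep, hSmem⟩, fun h => hSne (congrArg Subtype.val h)⟩
      have h1 : ((Module.finrank k (degPart (vanIdeal (Z : Set (ℙ k (Fin (m + 3 + 1) → k)))) 5) : ℤ)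
          - ((4 + (m + 3) - 1).choose (m + 3) : ℤ)) ≤ 0 := by
        have : (Module.finrank k (degPart (vanIdeal (Z : Set (ℙ k (Fin (m + 3 + 1) → k)))) 5) : ℤ) ≤
          ((4 + (m + 3) - 1).choose (m + 3) : ℤ) := by exact_mod_cast hfin
        linarith
      rw [max_eq_left h1]
      exact_mod_cast hpos

end Pool.Agent.Results.MP_b2f0ea_ag.UnexpectedLGP
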